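import Mathlib

set_option autoImplicit false

/-!
# A family of 5-critical graphs with linear minimum degree

The graph `K L X` has a frame vertex `f`, two odd cycles `P false`, `P true` of length `L`, and two
copies `R false`, `R true` of a finite set `U` joined by a perfect matching.  `f` is joined to both
cycles, and `P s p` is joined to `R s u` when `X p u`.
-/

namespace Pool.Agent.H889R2.Crit5

inductive Vt (L : ℕ) (U : Type) : Type
  | f : Vt L U
  | P (s : Bool) (p : ZMod L) : Vt L U
  | R (s : Bool) (u : U) : Vt L U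

variable {L : ℕ} {U : Type}

/-- adjacency -/
def Ad (X : ZMod L → U → Prop) : Vt L U → Vt L U → Prop
  | .f, .P _ _ => True
  | .P _ _, .f => True
  | .P s p, .P s' p' => s = s' ∧ (p' = p + 1 ∨ p = p' + 1)
  | .P s p, .R s' u => s = s' ∧ X p u
  | .R s u, .P s' p => s = s' ∧ X p u
  | .R s u, .R s' u' => s ≠ s' ∧ u = u'
  | _, _ => False

lemma Ad_symm (X : ZMod L → U → Prop) : ∀ a b : Vt L U, Ad X a b → Ad X b a := by
  intro a b h
  cases a <;> cases b <;> simp only [Ad] at h ⊢
  · exact ⟨h.1.symm, h.2.symm⟩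
  · exact ⟨h.1.symm, h.2⟩
  · exact ⟨h.1.symm, h.2⟩
  · exact ⟨fun e => h.1 e.symm, h.2.symm⟩

/-- the graph -/
def K (X : ZMod L → U → Prop) (hL : 1 < L) : SimpleGraph (Vt L U) where
  Adj := Ad X
  symm := ⟨fun a b h => Ad_symm X a b h⟩
  loopless := ⟨fun a h => by
    have : Fact (1 < L) := ⟨hL⟩
    cases a with
    | f => exact h
    | P s p =>
      obtain ⟨-, h | h⟩ := h
      · have : (1 : ZMod L) = 0 := by
          have := h.symm
          rwa [add_eq_left] at this
        exact one_ne_zero this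
      · have : (1 : ZMod L) = 0 := by
          have := h.symm
          rwa [add_eq_left] at this
        exact one_ne_zero this
    | R s u => exact h.1 rfl⟩

/-! ### it is not 4-colourable -/

lemma odd_cycle (hL : Odd L) (g : ZMod L → Bool) (h : ∀ p, g (p + 1) = !g p) : False := by
  have key : ∀ k : ℕ, g (k : ZMod L) = xor (g 0) (decide (k % 2 = 1)) := by
    intro k
    induction k with
    | zero => simp
    | succ k ih =>
      rw [Nat.cast_succ, h, ih]
      rcases Nat.mod_two_eq_zero_or_one k with h1 | h1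
      · have h2 : (k + 1) % 2 = 1 := by omega
        simp [h1, h2]
      · have h2 : (k + 1) % 2 = 0 := by omega
        simp [h1, h2]
  have h1 := key L
  rw [ZMod.natCast_self] at h1
  have h2 : L % 2 = 1 := Nat.odd_iff.1 hL
  rw [h2] at h1
  revert h1
  cases g 0 <;> simp

lemma fin4_two : ∀ c d : Fin 4, c ≠ d → ∃ e : Fin 4, ∀ a b : Fin 4,
    (a ≠ c ∧ a ≠ d ∧ b ≠ c ∧ b ≠ d ∧ a ≠ b) → (decide (b = e)) = (!decide (a = e)) := by
  decide

lemma fin4_sync : ∀ c a b x y : Fin 4, a ≠ c → b ≠ c → a ≠ b → x ≠ a → x ≠ b → y ≠ a → y ≠ b →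
    x ≠ c → y ≠ c → x = y := by
  decide

theorem not_colorable (X : ZMod L → U → Prop) (hL1 : 1 < L) (hL : Odd L)
    (H1 : ∀ p q, ∃ u, X p u ∧ X q u)
    (H2 : ∀ u v, ∃ p, X p u ∧ X p v ∧ X (p + 1) u ∧ X (p + 1) v) :
    ¬ (K X hL1).Colorable 4 := by
  rintro ⟨C⟩
  have hv : ∀ a b : Vt L U, Ad X a b → C a ≠ C b := fun a b h => C.valid h
  have hPf : ∀ s p, C (.P s p) ≠ C .f := fun s p => hv _ _ trivial
  have hPP : ∀ s p, C (.P s p) ≠ C (.P s (p + 1)) := fun s p => hv _ _ ⟨rfl, Or.inl rfl⟩
  have hPR : ∀ s p u, X p u → C (.P s p) ≠ C (.R s u) := fun s p u h => hv _ _ ⟨rfl, h⟩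
  have hRR : ∀ u, C (.R false u) ≠ C (.R true u) := fun u => hv _ _ ⟨by decide, rfl⟩
  -- every colour other than that of `f` appears on each cycle
  have hall : ∀ s (d : Fin 4), d ≠ C .f → ∃ p, C (.P s p) = d := by
    intro s d hd
    by_contra hcon
    push Not at hcon
    obtain ⟨e, he⟩ := fin4_two (C .f) d (Ne.symm hd)
    exact odd_cycle hL (fun p => decide (C (.P s p) = e)) fun p =>
      he _ _ ⟨hPf s p, hcon p, hPf s (p + 1), hcon (p + 1), hPP s p⟩
  -- synchronisation
  have hsync : ∀ s u v, C (.R s u) ≠ C .f → C (.R s v) ≠ C .f → C (.R s u) = C (.R s v) := by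
    intro s u v hu hv'
    obtain ⟨p, h1, h2, h3, h4⟩ := H2 u v
    exact fin4_sync (C .f) (C (.P s p)) (C (.P s (p + 1))) _ _ (hPf s p) (hPf s (p + 1)) (hPP s p)
      (hPR s p u h1).symm (hPR s (p + 1) u h3).symm (hPR s p v h2).symm (hPR s (p + 1) v h4).symm
      hu hv'
  have hd : ∀ s, ∃ d : Fin 4, d ≠ C .f ∧ ∀ u, C (.R s u) = C .f ∨ C (.R s u) = d := by
    intro s
    by_cases h : ∃ u, C (.R s u) ≠ C .f
    · obtain ⟨u, hu⟩ := h
      refine ⟨C (.R s u), hu, fun v => ?_⟩
      by_cases hv' : C (.R s v) = C .f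
      · exact Or.inl hv'
      · exact Or.inr (hsync s v u hv' hu)
    · push Not at h
      obtain ⟨d, hd⟩ : ∃ d : Fin 4, d ≠ C .f := by
        have : ∀ c : Fin 4, ∃ d : Fin 4, d ≠ c := by decide
        exact this _
      exact ⟨d, hd, fun u => Or.inl (h u)⟩
  have hfin : ∀ s, ∃ p, ∀ u, X p u → C (.R s u) = C .f := by
    intro s
    obtain ⟨d, hd1, hd2⟩ := hd s
    obtain ⟨p, hp⟩ := hall s d hd1
    refine ⟨p, fun u hu => ?_⟩
    rcases hd2 u with h | h
    · exact h
    · exact absurd (hp.trans h.symm) (hPR s p u hu)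
  obtain ⟨p, hp⟩ := hfin false
  obtain ⟨q, hq⟩ := hfin true
  obtain ⟨u, hu1, hu2⟩ := H1 p q
  exact hRR u ((hp u hu1).trans (hq u hu2).symm)

/-! ### colourings -/

section col

open Classical in
/-- the basic colourings -/
noncomputable def col (pos : Bool → ZMod L) (ec : Bool → Fin 4) (S : Bool → U → Prop) :
    Vt L U → Fin 4
  | .f => 3
  | .P s p => if p = pos s then ec s else if (p - pos s).val % 2 = 1 then 1 else 2
  | .R s u => if S s u then 3 else 0

open Classical in
/-- possible conflicts -/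
def Conf (X : ZMod L → U → Prop) (pos : Bool → ZMod L) (ec : Bool → Fin 4) (S : Bool → U → Prop)
    (x y : Vt L U) : Prop :=
  (∃ s, x = .f ∧ y = .P s (pos s) ∧ ec s = 3) ∨
  (∃ s, x = .P s (pos s) ∧ y = .P s (pos s + 1) ∧ ec s = 1) ∨
  (∃ s, x = .P s (pos s - 1) ∧ y = .P s (pos s) ∧ ec s = 2) ∨
  (∃ s u, x = .P s (pos s) ∧ y = .R s u ∧ X (pos s) u ∧ ec s = if S s u then 3 else 0) ∨
  (∃ u, x = .R false u ∧ y = .R true u ∧ (S false u ↔ S true u))

lemma val_succ (hL1 : 1 < L) (a : ZMod L) : (a + 1).val = (a.val + 1) % L := by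
  have : Fact (1 < L) := ⟨hL1⟩
  rw [ZMod.val_add, ZMod.val_one]

lemma col_PP (hL1 : 1 < L) (hL : Odd L) (pos : Bool → ZMod L) (ec : Bool → Fin 4)
    (S : Bool → U → Prop) (s : Bool) (p : ZMod L)
    (h : col (U := U) pos ec S (.P s p) = col pos ec S (.P s (p + 1))) :
    (p = pos s ∧ ec s = 1) ∨ (p + 1 = pos s ∧ ec s = 2) := by
  have : NeZero L := ⟨by omega⟩
  have : Fact (1 < L) := ⟨hL1⟩
  have hodd : L % 2 = 1 := Nat.odd_iff.1 hL
  simp only [col] at h
  have hval := val_succ hL1 (p - pos s)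
  have e1 : p - pos s + 1 = p + 1 - pos s := by ring
  rw [e1] at hval
  have hlt := ZMod.val_lt (p - pos s)
  by_cases h1 : p = pos s
  · have h2 : p + 1 ≠ pos s := by
      intro h2
      rw [h1, add_eq_left] at h2
      exact one_ne_zero h2
    rw [if_pos h1, if_neg h2] at h
    have h3 : (p + 1 - pos s).val = 1 := by
      rw [hval, h1, sub_self, ZMod.val_zero, zero_add, Nat.mod_eq_of_lt hL1]
    rw [h3] at h
    simp only [Nat.one_mod, if_true] at h
    exact Or.inl ⟨h1, h⟩
  · rw [if_neg h1] at h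
    have h0 : (p - pos s).val ≠ 0 := by
      intro h0
      apply h1
      rw [ZMod.val_eq_zero, sub_eq_zero] at h0
      exact h0
    by_cases h2 : p + 1 = pos s
    · rw [if_pos h2] at h
      have h3 : (p + 1 - pos s).val = 0 := by rw [h2, sub_self, ZMod.val_zero]
      rw [hval] at h3
      have h4 : (p - pos s).val + 1 = L := by
        by_contra hne
        have : (p - pos s).val + 1 < L := by omega
        rw [Nat.mod_eq_of_lt this] at h3
        omega
      have h5 : (p - pos s).val % 2 = 0 := by omega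
      rw [h5] at h
      simp only [zero_ne_one, if_false] at h
      exact Or.inr ⟨h2, h.symm⟩
    · exfalso
      rw [if_neg h2] at h
      have h3 : (p + 1 - pos s).val ≠ 0 := by
        intro h0
        apply h2
        rw [ZMod.val_eq_zero, sub_eq_zero] at h0
        exact h0
      have h4 : (p - pos s).val + 1 < L := by
        by_contra hge
        have : (p - pos s).val + 1 = L := by omega
        rw [this, Nat.mod_self] at hval
        exact h3 hval
      rw [Nat.mod_eq_of_lt h4] at hval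
      rw [hval] at h
      rcases Nat.mod_two_eq_zero_or_one (p - pos s).val with h5 | h5
      · have h6 : ((p - pos s).val + 1) % 2 = 1 := by omega
        rw [h5, h6] at h
        simp at h
      · have h6 : ((p - pos s).val + 1) % 2 = 0 := by omega
        rw [h5, h6] at h
        simp at h

lemma col_P_ne3 (pos : Bool → ZMod L) (ec : Bool → Fin 4) (S : Bool → U → Prop) (s : Bool)
    (p : ZMod L) (h : p ≠ pos s) : col (U := U) pos ec S (.P s p) ≠ 3 ∧
      col (U := U) pos ec S (.P s p) ≠ 0 := by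
  simp only [col, if_neg h]
  split_ifs <;> decide

lemma conflict (X : ZMod L → U → Prop) (hL1 : 1 < L) (hL : Odd L) (pos : Bool → ZMod L)
    (ec : Bool → Fin 4) (S : Bool → U → Prop) :
    ∀ x y : Vt L U, Ad X x y → col pos ec S x = col pos ec S y →
      Conf X pos ec S x y ∨ Conf X pos ec S y x := by
  classical
  intro x y hxy hc
  have hfP : ∀ s p, col (U := U) pos ec S .f = col (U := U) pos ec S (.P s p) →
      Conf X pos ec S .f (.P s p) := by
    intro s p h
    left
    by_cases hp : p = pos s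
    · refine ⟨s, rfl, by rw [hp], ?_⟩
      simp only [col, if_pos hp] at h
      exact h.symm
    · exact absurd h.symm (col_P_ne3 pos ec S s p hp).1
  have hPP : ∀ s p, col (U := U) pos ec S (.P s p) = col (U := U) pos ec S (.P s (p + 1)) →
      Conf X pos ec S (.P s p) (.P s (p + 1)) := by
    intro s p h
    rcases col_PP hL1 hL pos ec S s p h with ⟨h1, h2⟩ | ⟨h1, h2⟩
    · exact Or.inr (Or.inl ⟨s, by rw [h1], by rw [h1], h2⟩)
    · refine Or.inr (Or.inr (Or.inl ⟨s, ?_, by rw [h1], h2⟩))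
      rw [← h1, add_sub_cancel_right]
  have hPR : ∀ s p u, X p u → col pos ec S (.P s p) = col pos ec S (.R s u) →
      Conf X pos ec S (.P s p) (.R s u) := by
    intro s p u hu h
    by_cases hp : p = pos s
    · refine Or.inr (Or.inr (Or.inr (Or.inl ⟨s, u, by rw [hp], rfl, hp ▸ hu, ?_⟩)))
      simp only [col, if_pos hp] at h
      exact h
    · exfalso
      have h1 := col_P_ne3 (U := U) pos ec S s p hp
      rw [h] at h1
      simp only [col] at h1
      split_ifs at h1
      · exact h1.1 rfl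
      · exact h1.2 rfl
  have hRR : ∀ u, col pos ec S (.R false u) = col pos ec S (.R true u) →
      Conf X pos ec S (.R false u) (.R true u) := by
    intro u h
    refine Or.inr (Or.inr (Or.inr (Or.inr ⟨u, rfl, rfl, ?_⟩)))
    simp only [col] at h
    by_cases h1 : S false u <;> by_cases h2 : S true u <;> simp [h1, h2] at h ⊢
  cases x with
  | f =>
    cases y with
    | f => exact hxy.elim
    | P s p => exact Or.inl (hfP s p hc)
    | R s u => exact hxy.elim
  | P s p =>
    cases y with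
    | f => exact Or.inr (hfP s p hc.symm)
    | P s' p' =>
      obtain ⟨rfl, rfl | rfl⟩ := hxy
      · exact Or.inl (hPP s p hc)
      · exact Or.inr (hPP s p' hc.symm)
    | R s' u =>
      obtain ⟨rfl, hu⟩ := hxy
      exact Or.inl (hPR s p u hu hc)
  | R s u =>
    cases y with
    | f => exact hxy.elim
    | P s' p =>
      obtain ⟨rfl, hu⟩ := hxy
      exact Or.inr (hPR _ p u hu hc.symm)
    | R s' u' =>
      obtain ⟨hs, rfl⟩ := hxy
      cases s <;> cases s'
      · exact absurd rfl hs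
      · exact Or.inl (hRR u hc)
      · exact Or.inr (hRR u hc.symm)
      · exact absurd rfl hs

end col

/-- every edge is critical -/
theorem crit (X : ZMod L → U → Prop) (hL1 : 1 < L) (hL : Odd L)
    (H2 : ∀ u v, ∃ p, X p u ∧ X p v ∧ X (p + 1) u ∧ X (p + 1) v)
    (H3 : ∀ p u, X p u → ∃ q, X q u ∧ ∀ v, X p v → X q v → v = u) :
    ∀ a b : Vt L U, Ad X a b → ∃ c : Vt L U → Fin 4, ∀ x y, Ad X x y → c x = c y →
      (x = a ∧ y = b) ∨ (x = b ∧ y = a) := by
  classical
  -- it is enough to treat one orientation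
  have swap : ∀ a b : Vt L U, (∃ c : Vt L U → Fin 4, ∀ x y, Ad X x y → c x = c y →
      (x = a ∧ y = b) ∨ (x = b ∧ y = a)) → (∃ c : Vt L U → Fin 4, ∀ x y, Ad X x y → c x = c y →
      (x = b ∧ y = a) ∨ (x = a ∧ y = b)) := by
    rintro a b ⟨c, hc⟩
    exact ⟨c, fun x y h1 h2 => (hc x y h1 h2).symm⟩
  have main : ∀ (a b : Vt L U) (pos : Bool → ZMod L) (ec : Bool → Fin 4) (S : Bool → U → Prop),
      (∀ x y, Conf X pos ec S x y → (x = a ∧ y = b) ∨ (x = b ∧ y = a)) →
      ∃ c : Vt L U → Fin 4, ∀ x y, Ad X x y → c x = c y →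
        (x = a ∧ y = b) ∨ (x = b ∧ y = a) := by
    intro a b pos ec S h
    refine ⟨col pos ec S, fun x y h1 h2 => ?_⟩
    rcases conflict X hL1 hL pos ec S x y h1 h2 with h3 | h3
    · exact h x y h3
    · rcases h y x h3 with ⟨h4, h5⟩ | ⟨h4, h5⟩
      · exact Or.inr ⟨h5, h4⟩
      · exact Or.inl ⟨h5, h4⟩
  -- the frame vertex
  have hfP : ∀ s p, ∃ c : Vt L U → Fin 4, ∀ x y, Ad X x y → c x = c y →
      (x = .f ∧ y = .P s p) ∨ (x = .P s p ∧ y = .f) := by
    intro s p
    refine main _ _ (fun _ => p) (fun s' => if s' = s then 3 else 0) (fun s' _ => s' ≠ s) ?_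
    rintro x y (⟨s', rfl, rfl, h⟩ | ⟨s', rfl, rfl, h⟩ | ⟨s', rfl, rfl, h⟩ | ⟨s', u, rfl, rfl, h1, h⟩ |
      ⟨u, rfl, rfl, h⟩)
    · by_cases hs : s' = s
      · subst hs; exact Or.inl ⟨rfl, rfl⟩
      · simp [hs] at h
    · by_cases hs : s' = s <;> simp [hs] at h
    · by_cases hs : s' = s <;> simp [hs] at h
    · by_cases hs : s' = s <;> simp [hs] at h
    · cases s <;> simp at h
  -- the cycle edges
  have hPP : ∀ s p, ∃ c : Vt L U → Fin 4, ∀ x y, Ad X x y → c x = c y →
      (x = .P s p ∧ y = .P s (p + 1)) ∨ (x = .P s (p + 1) ∧ y = .P s p) := by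
    intro s p
    refine main _ _ (fun _ => p + 1) (fun s' => if s' = s then 2 else 0) (fun s' _ => s' ≠ s) ?_
    rintro x y (⟨s', rfl, rfl, h⟩ | ⟨s', rfl, rfl, h⟩ | ⟨s', rfl, rfl, h⟩ | ⟨s', u, rfl, rfl, h1, h⟩ |
      ⟨u, rfl, rfl, h⟩)
    · by_cases hs : s' = s <;> simp [hs] at h
    · by_cases hs : s' = s <;> simp [hs] at h
    · by_cases hs : s' = s
      · subst hs
        left
        exact ⟨by rw [add_sub_cancel_right], rfl⟩
      · simp [hs] at h
    · by_cases hs : s' = s <;> simp [hs] at h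
    · cases s <;> simp at h
  -- cycle-base edges
  have hPR : ∀ s p u, X p u → ∃ c : Vt L U → Fin 4, ∀ x y, Ad X x y → c x = c y →
      (x = .P s p ∧ y = .R s u) ∨ (x = .R s u ∧ y = .P s p) := by
    intro s p u hu
    obtain ⟨q, hq, hq'⟩ := H3 p u hu
    refine main _ _ (fun s' => if s' = s then p else q) (fun _ => 0)
      (fun s' v => if s' = s then (X p v ∧ v ≠ u) else ¬ (X p v ∧ v ≠ u)) ?_
    rintro x y (⟨s', rfl, rfl, h⟩ | ⟨s', rfl, rfl, h⟩ | ⟨s', rfl, rfl, h⟩ | ⟨s', v, rfl, rfl, h1, h⟩ |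
      ⟨v, rfl, rfl, h⟩)
    · simp at h
    · simp at h
    · simp at h
    · by_cases hs : s' = s
      · subst hs
        simp only [if_true] at h h1 ⊢
        by_cases hv : v = u
        · subst hv; simp
        · rw [if_pos ⟨h1, hv⟩] at h
          simp at h
      · simp only [if_neg hs] at h h1 ⊢
        exfalso
        rw [if_pos] at h
        · simp at h
        · rintro ⟨h2, h3⟩
          exact h3 (hq' v h2 h1)
    · exfalso
      cases s <;> simp at h <;> tauto
  -- matching edges
  have hRR : ∀ u, ∃ c : Vt L U → Fin 4, ∀ x y, Ad X x y → c x = c y →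
      (x = .R false u ∧ y = .R true u) ∨ (x = .R true u ∧ y = .R false u) := by
    intro u
    obtain ⟨p, hp, -⟩ := H2 u u
    obtain ⟨q, hq, hq'⟩ := H3 p u hp
    refine main _ _ (fun s' => if s' then q else p) (fun _ => 0)
      (fun s' v => if s' then (X p v → v = u) else X p v) ?_
    rintro x y (⟨s', rfl, rfl, h⟩ | ⟨s', rfl, rfl, h⟩ | ⟨s', rfl, rfl, h⟩ | ⟨s', v, rfl, rfl, h1, h⟩ |
      ⟨v, rfl, rfl, h⟩)
    · simp at h
    · simp at h
    · simp at h
    · exfalso
      cases s'
      · simp only [Bool.false_eq_true, if_false] at h h1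
        rw [if_pos h1] at h
        simp at h
      · simp only [if_true] at h h1
        rw [if_pos (fun h2 => hq' v h2 h1)] at h
        simp at h
    · simp only [Bool.false_eq_true, if_false, if_true] at h
      have : v = u := by tauto
      subst this
      exact Or.inl ⟨rfl, rfl⟩
  intro a b hab
  cases a with
  | f =>
    cases b with
    | f => exact hab.elim
    | P s p => exact hfP s p
    | R s u => exact hab.elim
  | P s p =>
    cases b with
    | f => exact swap _ _ (hfP s p)
    | P s' p' =>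
      obtain ⟨rfl, rfl | rfl⟩ := hab
      · exact hPP s p
      · exact swap _ _ (hPP s p')
    | R s' u =>
      obtain ⟨rfl, hu⟩ := hab
      exact hPR s p u hu
  | R s u =>
    cases b with
    | f => exact hab.elim
    | P s' p =>
      obtain ⟨rfl, hu⟩ := hab
      exact swap _ _ (hPR _ p u hu)
    | R s' u' =>
      obtain ⟨hs, rfl⟩ := hab
      cases s <;> cases s'
      · exact absurd rfl hs
      · exact hRR u
      · exact swap _ _ (hRR u)
      · exact absurd rfl hs

end Pool.Agent.H889R2.Crit5
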