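import Pool.Agent.H889R2.Crit5

set_option autoImplicit false

namespace Pool.Agent.H889R2.Crit5

section fam

variable (m : ℕ)

/-- block of a position -/
def blk (p : ZMod (6 * m + 3)) : ZMod 3 := ((p.val / (2 * m + 1) : ℕ) : ZMod 3)

/-- index of the special vertex -/
def sp (p : ZMod (6 * m + 3)) : ℕ := min ((p.val % (2 * m + 1)) / 2) (m - 1)

/-- the incidence relation -/
def X (p : ZMod (6 * m + 3)) (u : ZMod 3 × Fin m) : Prop :=
  u.1 = blk m p ∨ (u.1 = blk m p - 1 ∧ u.2.val = sp m p)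

/-- the position in block `i` with offset `t` -/
def ps (i : ZMod 3) (t : ℕ) : ZMod (6 * m + 3) := ((i.val * (2 * m + 1) + t : ℕ) : ZMod (6 * m + 3))

variable {m}

lemma ps_val {i : ZMod 3} {t : ℕ} (ht : t < 2 * m + 1) :
    (ps m i t).val = i.val * (2 * m + 1) + t := by
  rw [ps, ZMod.val_natCast, Nat.mod_eq_of_lt]
  have hi : i.val < 3 := ZMod.val_lt i
  have h1 : i.val * (2 * m + 1) ≤ 2 * (2 * m + 1) := Nat.mul_le_mul_right _ (by omega)
  omega

lemma blk_ps {i : ZMod 3} {t : ℕ} (ht : t < 2 * m + 1) : blk m (ps m i t) = i := by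
  rw [blk, ps_val ht]
  have h1 : (i.val * (2 * m + 1) + t) / (2 * m + 1) = i.val := by
    rw [Nat.add_comm, Nat.add_mul_div_right _ _ (by omega), Nat.div_eq_of_lt ht, zero_add]
  rw [h1]
  exact ZMod.natCast_zmod_val i

lemma sp_ps {i : ZMod 3} {t : ℕ} (ht : t < 2 * m + 1) : sp m (ps m i t) = min (t / 2) (m - 1) := by
  rw [sp, ps_val ht]
  have h1 : (i.val * (2 * m + 1) + t) % (2 * m + 1) = t := by
    rw [Nat.add_comm, Nat.add_mul_mod_self_right, Nat.mod_eq_of_lt ht]
  rw [h1]

lemma ps_succ (i : ZMod 3) (t : ℕ) : ps m i t + 1 = ps m i (t + 1) := by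
  rw [ps, ps]
  push_cast
  ring

lemma sp_lt (hm : 0 < m) (p : ZMod (6 * m + 3)) : sp m p < m := by
  have := min_le_right ((p.val % (2 * m + 1)) / 2) (m - 1)
  rw [sp]
  omega

lemma zmod3 : ∀ i j : ZMod 3, j = i ∨ j = i + 1 ∨ i = j + 1 := by decide

lemma zmod3_ne1 : ∀ i : ZMod 3, i + 1 ≠ i := by decide

lemma zmod3_ne2 : ∀ i : ZMod 3, i + 1 ≠ i - 1 := by decide

lemma zmod3_ne3 : ∀ i : ZMod 3, i - 1 ≠ i := by decide

theorem H1 (hm : 0 < m) : ∀ p q, ∃ u, X m p u ∧ X m q u := by
  intro p q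
  rcases zmod3 (blk m p) (blk m q) with h | h | h
  · exact ⟨(blk m p, ⟨0, hm⟩), Or.inl rfl, Or.inl h.symm⟩
  · refine ⟨(blk m p, ⟨sp m q, sp_lt hm q⟩), Or.inl rfl, Or.inr ⟨?_, rfl⟩⟩
    rw [h, add_sub_cancel_right]
  · refine ⟨(blk m q, ⟨sp m p, sp_lt hm p⟩), Or.inr ⟨?_, rfl⟩, Or.inl rfl⟩
    rw [h, add_sub_cancel_right]

lemma X_special {i : ZMod 3} {a : Fin m} {t : ℕ} (ht : t / 2 = a.val) :
    X m (ps m (i + 1) t) (i, a) := by
  have ha := a.2
  have ht' : t < 2 * m + 1 := by omega
  right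
  rw [blk_ps ht', add_sub_cancel_right, sp_ps ht']
  refine ⟨rfl, ?_⟩
  have h1 : t / 2 ≤ m - 1 := by omega
  rw [min_eq_left h1, ht]

lemma X_base {i : ZMod 3} {a : Fin m} {t : ℕ} (ht : t < 2 * m + 1) : X m (ps m i t) (i, a) :=
  Or.inl (blk_ps ht).symm

theorem H2 (hm : 0 < m) : ∀ u v, ∃ p, X m p u ∧ X m p v ∧ X m (p + 1) u ∧ X m (p + 1) v := by
  rintro ⟨i, a⟩ ⟨j, b⟩
  have ha := a.2
  have hb := b.2
  rcases zmod3 i j with rfl | rfl | rfl
  · refine ⟨ps m j 0, X_base (by omega), X_base (by omega), ?_, ?_⟩ <;>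
      rw [ps_succ] <;> exact X_base (by omega)
  · refine ⟨ps m (i + 1) (2 * a.val), X_special (by omega), X_base (by omega), ?_, ?_⟩ <;>
      rw [ps_succ]
    · exact X_special (by omega)
    · exact X_base (by omega)
  · refine ⟨ps m (j + 1) (2 * b.val), X_base (by omega), X_special (by omega), ?_, ?_⟩ <;>
      rw [ps_succ]
    · exact X_base (by omega)
    · exact X_special (by omega)

theorem H3 : ∀ p u, X m p u → ∃ q, X m q u ∧ ∀ v, X m p v → X m q v → v = u := by
  rintro p ⟨i, a⟩ h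
  have ha := a.2
  rcases h with h | ⟨h, h'⟩
  · simp only at h
    refine ⟨ps m (i + 1) (2 * a.val), X_special (by omega), ?_⟩
    rintro ⟨j, b⟩ h1 h2
    have hlt : 2 * a.val < 2 * m + 1 := by omega
    have hsp : sp m (ps m (i + 1) (2 * a.val)) = a.val := by
      rw [sp_ps hlt]
      have : 2 * a.val / 2 = a.val := by omega
      rw [this, min_eq_left (by omega)]
    rw [X] at h1 h2
    simp only [blk_ps hlt, hsp, ← h] at h1 h2
    rcases h2 with h2 | ⟨h2, h3⟩
    · exfalso
      subst h2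
      rcases h1 with h1 | ⟨h1, -⟩
      · exact zmod3_ne1 _ h1
      · exact zmod3_ne2 _ h1
    · rw [add_sub_cancel_right] at h2
      subst h2
      rw [Prod.mk.injEq]
      exact ⟨rfl, Fin.ext h3⟩
  · simp only at h h'
    refine ⟨ps m i 0, X_base (by omega), ?_⟩
    rintro ⟨j, b⟩ h1 h2
    have hlt : 0 < 2 * m + 1 := by omega
    have hb : blk m p = i + 1 := by rw [h, sub_add_cancel]
    rw [X] at h1 h2
    simp only [blk_ps hlt, hb] at h1 h2
    rcases h1 with h1 | ⟨h1, h3⟩
    · exfalso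
      subst h1
      rcases h2 with h2 | ⟨h2, -⟩
      · exact zmod3_ne1 _ h2
      · exact zmod3_ne2 _ h2
    · rw [add_sub_cancel_right] at h1
      subst h1
      rw [Prod.mk.injEq]
      exact ⟨rfl, Fin.ext (h3.trans h'.symm)⟩

end fam

/-! ### counting -/

/-- the vertex type as a sum type -/
def vtEquiv (L : ℕ) (U : Type) : Vt L U ≃ Option (Bool × (ZMod L ⊕ U)) where
  toFun
    | .f => none
    | .P s p => some (s, Sum.inl p)
    | .R s u => some (s, Sum.inr u)
  invFun
    | none => .f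
    | some (s, Sum.inl p) => .P s p
    | some (s, Sum.inr u) => .R s u
  left_inv x := by cases x <;> rfl
  right_inv x := by
    rcases x with _ | ⟨s, p | u⟩ <;> rfl

noncomputable instance (L : ℕ) [NeZero L] (U : Type) [Fintype U] : Fintype (Vt L U) :=
  Fintype.ofEquiv _ (vtEquiv L U).symm

lemma card_Vt (L : ℕ) [NeZero L] (U : Type) [Fintype U] :
    Fintype.card (Vt L U) = 2 * (L + Fintype.card U) + 1 := by
  rw [Fintype.card_congr (vtEquiv L U), Fintype.card_option, Fintype.card_prod, Fintype.card_sum,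
    ZMod.card, Fintype.card_bool]

lemma card_fam (m : ℕ) : Fintype.card (Vt (6 * m + 3) (ZMod 3 × Fin m)) = 18 * m + 7 := by
  rw [card_Vt, Fintype.card_prod, ZMod.card, Fintype.card_fin]
  ring

/-- offsets -/
def off {m : ℕ} : Option (Fin m) → ℕ
  | none => m
  | some a => a.val

lemma off_lt {m : ℕ} (x : Option (Fin m)) : off x < 2 * m + 1 := by
  cases x with
  | none => show m < 2 * m + 1; omega
  | some a => have := a.2; show a.val < 2 * m + 1; omega

lemma off_inj {m : ℕ} {x y : Option (Fin m)} (h : off x = off y) : x = y := by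
  cases x with
  | none =>
    cases y with
    | none => rfl
    | some b => have := b.2; have h' : m = b.val := h; omega
  | some a =>
    cases y with
    | none => have := a.2; have h' : a.val = m := h; omega
    | some b => have h' : a.val = b.val := h; rw [Fin.ext h']

/-- every vertex has at least `m + 1` neighbours -/
theorem degree_ge {m : ℕ} (v : Vt (6 * m + 3) (ZMod 3 × Fin m)) :
    ∃ g : Option (Fin m) → Vt (6 * m + 3) (ZMod 3 × Fin m), Function.Injective g ∧
      ∀ x, Ad (X m) v (g x) := by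
  have hps : ∀ (i : ZMod 3) (x y : Option (Fin m)), ps m i (off x) = ps m i (off y) → x = y := by
    intro i x y h
    have := congrArg ZMod.val h
    rw [ps_val (off_lt x), ps_val (off_lt y)] at this
    exact off_inj (by omega)
  cases v with
  | f =>
    refine ⟨fun x => .P false (ps m 0 (off x)), ?_, fun x => trivial⟩
    intro x y hxy
    simp only [Vt.P.injEq, true_and] at hxy
    exact hps 0 x y hxy
  | P s p =>
    refine ⟨fun x => match x with | none => .f | some a => .R s (blk m p, a), ?_, ?_⟩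
    · intro x y hxy
      cases x <;> cases y <;> simp at hxy ⊢
      exact hxy
    · intro x
      cases x with
      | none => trivial
      | some a => exact ⟨rfl, Or.inl rfl⟩
  | R s u =>
    refine ⟨fun x => .P s (ps m u.1 (off x)), ?_, ?_⟩
    · intro x y hxy
      simp only [Vt.P.injEq, true_and] at hxy
      exact hps u.1 x y hxy
    · intro x
      exact ⟨rfl, X_base (off_lt x)⟩

end Pool.Agent.H889R2.Crit5
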